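import Pool.Agent.Lib.MP_e43fce_nt_coal.InvFin

/-!
Almost all Collatz orbits of neighbouring integers coalesce: for almost all `n` the orbits of all
the integers of the block `[n, n + H]` coincide soon, for `H` up to `exp (o (sqrt (log n)))`.
-/

set_option autoImplicit false

namespace Pool.Agent.Results.MP_e43fce_nt.Coalescence

/-- the Collatz map -/
def C (n : ℕ) : ℕ := if n % 2 = 0 then n / 2 else 3 * n + 1

/-- There are `c, D > 0` such that, for all `m ≥ 1` and `X ≥ 2 ^ m`: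
(1) for all `H ≥ 1`, for all but at most `D (1 + log H) X / sqrt m` of the `n ∈ [1, X]` the orbits
of all the integers `n, n + 1, …, n + H` have the same value after `2 m` steps;
(2) for all `e` and `g`, for all but at most `D sqrt ((1 + e² + log (1 + g)) / m) X` of them there
is `k ≤ 2 m - e` with `C^[k + e] n = C^[k] (3 ^ e * n + g)`;
(3) the order is sharp: if `X` is large enough for `m`, at least `c X / sqrt m` of them have
`C^[k] n ≠ C^[k] (n + 1)` for all `k ≤ m`;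
and (4) for every `B` there is `K` such that for every set `E` for which at most `B` positive
integers `n` violate `n ∈ E ↔ C n ∈ E`, all `X ≥ 2` and `H ≥ 1`, for all but at most
`K (1 + log H) X / sqrt (log X)` of the `n ∈ [1, X]` the block `[n, n + H]` is contained in `E` or
disjoint from `E`. -/
theorem result : ∃ c D : ℝ, 0 < c ∧ 0 < D ∧
    (∀ X m H : ℕ, 1 ≤ m → 1 ≤ H → 2 ^ m ≤ X →
      ((({n : ℕ | ∃ i ≤ H, C^[2 * m] (n + i) ≠ C^[2 * m] n} ∩ Set.Icc 1 X).ncard : ℝ)) ≤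
        D * (1 + Real.log H) / √m * X) ∧
    (∀ X m e g : ℕ, 1 ≤ m → 2 ^ m ≤ X →
      ((({n : ℕ | ∀ k, k + e ≤ 2 * m → C^[k + e] n ≠ C^[k] (3 ^ e * n + g)} ∩
        Set.Icc 1 X).ncard : ℝ)) ≤ D * √((1 + (e : ℝ) ^ 2 + Real.log (1 + g)) / m) * X) ∧
    (∀ m : ℕ, 1 ≤ m → ∃ X0 : ℕ, ∀ X : ℕ, X0 ≤ X →
      c / √m * X ≤
        ((({n : ℕ | ∀ k ≤ m, C^[k] n ≠ C^[k] (n + 1)} ∩ Set.Icc 1 X).ncard : ℝ))) ∧
    (∀ B : ℕ, ∃ K : ℝ, ∀ E : Set ℕ,
      {n : ℕ | 0 < n ∧ ¬ (n ∈ E ↔ C n ∈ E)}.encard ≤ B → ∀ X H : ℕ, 2 ≤ X → 1 ≤ H →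
      ((({n : ℕ | ∃ i ≤ H, ¬ (n ∈ E ↔ n + i ∈ E)} ∩ Set.Icc 1 X).ncard : ℝ)) ≤
        K * (1 + Real.log H) / √(Real.log X) * X) :=
  Pool.Agent.Lib.MP_e43fce_nt_coal.coal_fin

end Pool.Agent.Results.MP_e43fce_nt.Coalescence
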