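import Pool.Agent.Lib.MP_e43fce_nt_nat.AFinR

/-!
Every set of positive integers which is almost invariant under the Collatz map (all but a bounded
number of positive integers belong to it if and only if their images do) has a natural density, the
same in all residue classes, with a rate which is uniform over all such sets; the density of the
set of predecessors of `a` is at least `c' / a` if `a` is prime to `3`.
-/

set_option autoImplicit false

namespace Pool.Agent.Results.MP_e43fce_nt.InvariantDensity

/-- the Collatz map -/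
def C (n : ℕ) : ℕ := if n % 2 = 0 then n / 2 else 3 * n + 1

/-- the predecessors of `a`: the integers whose orbit contains `a` -/
def Pred (a : ℕ) : Set ℕ := {n | ∃ k : ℕ, C^[k] n = a}

/-- There are `c, c' > 0` and a number `d E` for every set `E` such that `c' / a ≤ d (Pred a)` for
every positive `a` prime to `3`, and such that for all `M ≥ 1` and `B` there is a constant `K` with
`|#{n ∈ E : 1 ≤ n ≤ X, n ≡ r mod M} - d E * X / M| ≤ K * X / (log X) ^ c`
for all `X ≥ 2`, all `r` and all sets `E` for which at most `B` positive integers `n` violate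
`n ∈ E ↔ C n ∈ E`. -/
theorem result : ∃ (c c' : ℝ) (d : Set ℕ → ℝ), 0 < c ∧ 0 < c' ∧
    (∀ a : ℕ, 0 < a → ¬ 3 ∣ a → c' / a ≤ d (Pred a)) ∧
    ∀ M B : ℕ, 1 ≤ M → ∃ K : ℝ, ∀ E : Set ℕ,
      {n : ℕ | 0 < n ∧ ¬ (n ∈ E ↔ C n ∈ E)}.encard ≤ B → ∀ X : ℕ, 2 ≤ X → ∀ r : ℕ,
      |(((E ∩ {n | n % M = r % M}) ∩ Set.Icc 1 X).ncard : ℝ) - d E * X / M|
        ≤ K * X / (Real.log X) ^ c :=
  Pool.Agent.Lib.MP_e43fce_nt_nat.fin_almost

end Pool.Agent.Results.MP_e43fce_nt.InvariantDensity
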