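import Pool.Agent.Lib.MP_e43fce_ps.EFin

/-!
Power saving in Tao's theorem on Collatz orbits, in natural density, uniformly in both scales, for
the whole orbit down to the lower scale and with the sharp number of steps.
-/

set_option autoImplicit false

namespace Pool.Agent.Results.MP_e43fce_nt.PowerSaving

/-- the Collatz map -/
def C (n : ℕ) : ℕ := if n % 2 = 0 then n / 2 else 3 * n + 1

/-- the orbit of `n` comes down to `N` along the line of the random model: for some `t`,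
`C^[t] n ≤ N` and `log (C^[s] n)` differs from `log X - s log (4/3) / 3` by at most `b` for all
`s ≤ t` -/
def Follows (b : ℝ) (N X n : ℕ) : Prop := ∃ t : ℕ, C^[t] n ≤ N ∧ ∀ s ≤ t,
  |Real.log (C^[s] n) - (Real.log X - s * (Real.log (4 / 3) / 3))| ≤ b

/-- the number of the `n` in `[1, X]` for which `Follows b N X n` fails -/
noncomputable def off (b : ℝ) (N X : ℕ) : ℕ := by
  classical exact ((Finset.Icc 1 X).filter (fun n : ℕ => ¬ Follows b N X n)).card

/-- the number of the `n` in `[1, X]` such that `C^[k] n > N` for all `k ≤ t` -/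
noncomputable def above (N X : ℕ) (t : ℝ) : ℕ := by
  classical exact ((Finset.Icc 1 X).filter (fun n : ℕ => ∀ k : ℕ, (k : ℝ) ≤ t → N < C^[k] n)).card

theorem above_le {N X : ℕ} {t B : ℝ} (h : ∀ S : Finset ℕ, (∀ n ∈ S, 1 ≤ n ∧ n ≤ X ∧
    ∀ k : ℕ, (k : ℝ) ≤ t → N < C^[k] n) → (S.card : ℝ) ≤ B) : (above N X t : ℝ) ≤ B := by
  classical
  unfold above
  apply h
  intro n hn
  obtain ⟨h2, h3⟩ := Finset.mem_filter.1 hn
  obtain ⟨h4, h5⟩ := Finset.mem_Icc.1 h2
  exact ⟨h4, h5, h3⟩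

theorem off_le {N X : ℕ} {b B : ℝ} (h : ∀ S : Finset ℕ, (∀ n ∈ S, 1 ≤ n ∧ n ≤ X ∧
    ¬ Follows b N X n) → (S.card : ℝ) ≤ B) : (off b N X : ℝ) ≤ B := by
  classical
  unfold off
  apply h
  intro n hn
  obtain ⟨h2, h3⟩ := Finset.mem_filter.1 hn
  obtain ⟨h4, h5⟩ := Finset.mem_Icc.1 h2
  exact ⟨h4, h5, h3⟩

theorem Follows.mono {b b' : ℝ} (h : b ≤ b') {N X n : ℕ} (hF : Follows b N X n) :
    Follows b' N X n := by
  obtain ⟨t, h1, h2⟩ := hF
  exact ⟨t, h1, fun s hs => (h2 s hs).trans h⟩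

theorem exp_choice {ε : ℝ} (hε : 0 < ε) : ∃ d : ℝ, 0 < d ∧ d < 1 / 20 ∧ ∀ N : ℕ, 1 ≤ N →
    (N : ℝ) ^ (-d) ≤ (N : ℝ) ^ (ε - 1 / 20) := by
  refine ⟨max (1 / 20 - ε) (1 / 40), lt_max_of_lt_right (by norm_num), max_lt (by linarith)
    (by norm_num), fun N hN => ?_⟩
  apply Real.rpow_le_rpow_of_exponent_le (by exact_mod_cast hN)
  have := le_max_left (1 / 20 - ε) (1 / 40)
  linarith

/-- For every `ε > 0` there are `δ, K > 0` such that for all `N, X ≥ 1`: for all but at most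
`K (N ^ (ε - 1/20) + X ^ (-δ)) X` of the `n ≤ X` there is a `t` with `C^[t] n ≤ N` and
`|log (C^[s] n) - (log X - s log (4/3) / 3)| ≤ ε log X + K` for all `s ≤ t`; and at most
`K N ^ (ε - 1/20) X` of the `n ≤ X` have an orbit which stays above `N` during the first
`K log X + K` steps. -/
theorem result : ∀ ε : ℝ, 0 < ε → ∃ δ K : ℝ, 0 < δ ∧ 0 < K ∧ ∀ N X : ℕ, 1 ≤ N → 1 ≤ X →
    (off (ε * Real.log X + K) N X : ℝ) ≤ K * ((N : ℝ) ^ (ε - 1 / 20) + (X : ℝ) ^ (-δ)) * X ∧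
    (above N X (K * Real.log X + K) : ℝ) ≤ K * (N : ℝ) ^ (ε - 1 / 20) * X := by
  intro ε hε
  obtain ⟨d, hd, hd2, hN⟩ := exp_choice hε
  obtain ⟨dl, K1, hdl, hK1, h1⟩ := Pool.Agent.Lib.MP_e43fce_ps.efin hd hd2 hε
  obtain ⟨c, K2, hc, hK2, h2⟩ := Pool.Agent.Lib.MP_e43fce_ps.pfin_twenty hd hd2
  refine ⟨dl, c + K1 + K2 + 1, hdl, by linarith, fun N X hN1 hX => ⟨?_, ?_⟩⟩
  · refine off_le fun S hS => ?_
    refine (h1 N X hN1 hX S fun n hn => ⟨(hS n hn).1, (hS n hn).2.1, fun hF =>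
      (hS n hn).2.2 ?_⟩).trans ?_
    · exact Follows.mono (b := ε * Real.log X + K1) (by linarith) hF
    have h6 := hN N hN1
    have h7 : (0 : ℝ) ≤ (X : ℝ) ^ (-dl) := by positivity
    have h8 : (0 : ℝ) ≤ (N : ℝ) ^ (-d) := by positivity
    apply mul_le_mul_of_nonneg_right _ (Nat.cast_nonneg X)
    apply mul_le_mul (by linarith) (by linarith) (by positivity) (by linarith)
  · refine above_le fun S hS => ?_
    have hX' : (1 : ℝ) ≤ X := by exact_mod_cast hX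
    have hlog := Real.log_nonneg hX'
    refine (h2 N X hN1 hX S fun n hn => ⟨(hS n hn).1, (hS n hn).2.1, fun k hk =>
      (hS n hn).2.2 k (hk.trans (by nlinarith))⟩).trans ?_
    have h6 := hN N hN1
    have h8 : (0 : ℝ) ≤ (N : ℝ) ^ (-d) := by positivity
    apply mul_le_mul_of_nonneg_right _ (Nat.cast_nonneg X)
    apply mul_le_mul (by linarith) h6 h8 (by linarith)

end Pool.Agent.Results.MP_e43fce_nt.PowerSaving
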