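import Pool.Agent.Lib.MP_e43fce_nt_coal.PassFin

/-!
The law of first passage times of Collatz orbits: natural densities and the central limit theorem
for the time to hit a finite set (total stopping times among them) or to come below a slowly
growing bound, this time being constant on long blocks, and, uniformly in both scales, for the time
to come from `[1, X]` below `N`.
-/

set_option autoImplicit false

namespace Pool.Agent.Results.MP_e43fce_nt.TotalStoppingTimes

/-- the Collatz map -/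
def C (n : ℕ) : ℕ := if n % 2 = 0 then n / 2 else 3 * n + 1

/-- the first passage time: the least `k` with `C^[k] n ∈ S` or `C^[k] n ≤ f n`, or `⊤` if there
is none; for `S = {1}`, `f = 0` and `n > 0` it is the total stopping time of `n` -/
noncomputable def tau (S : Finset ℕ) (f : ℕ → ℕ) (n : ℕ) : ℕ∞ :=
  sInf {k : ℕ∞ | ∃ j : ℕ, k = j ∧ (C^[j] n ∈ S ∨ C^[j] n ≤ f n)}

/-- `f` is nondecreasing and `log (f n) / sqrt (log n)` tends to `0` -/
def Slow (f : ℕ → ℕ) : Prop := Monotone f ∧
  Filter.Tendsto (fun n : ℕ => Real.log (f n) / Real.sqrt (Real.log n)) Filter.atTop (nhds 0)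

/-- `S` has natural density `δ`: the proportion of elements of `S` in `[1, X]` tends to `δ` -/
def HasDensity (S : Set ℕ) (δ : ℝ) : Prop :=
  Filter.Tendsto (fun X : ℕ => ((S ∩ Set.Icc 1 X).ncard : ℝ) / X) Filter.atTop (nhds δ)

/-- `tau S f` is constant on the block `[n, n + exp ((log n) ^ (1 / 3))]` -/
def Blk (S : Finset ℕ) (f : ℕ → ℕ) (n : ℕ) : Prop :=
  ∀ i : ℕ, (i : ℝ) ≤ Real.exp (Real.log n ^ ((1 : ℝ) / 3)) → tau S f (n + i) = tau S f n

/-- There are `c > 0` and numbers `δ S f` such that for all finite `S` and slowly growing `f`,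
within the set of the `n` for which `tau S f` is constant on `[n, n + exp ((log n) ^ (1 / 3))]`, the
set of the `n` with `tau S f n ≤ n` has natural density `δ S f`, the set of the `n` with `tau S f n`
infinite has natural density `1 - δ S f`, for every real `y` the set of the `n` with
`tau S f n ≤ c₀ log n + y σ sqrt (log n)` has natural density `δ S f * Φ(y)`, where
`c₀ = 3 / log (4/3)`, `σ = (3 log 2 / log (4/3) - 1) sqrt (2 / log (4/3))` and `Φ` is the
distribution function of the standard normal law, and `δ S f ≥ c / a` for every positive `a ∈ S`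
prime to `3`; for every `S` and `ε > 0` there is `R` such that for all `N` and all
`X ≥ R max(N, 1)`, with `t = tau S N`, the number of the `n ∈ [1, X]` with `t n` finite differs from
`δ S N * X` by at most `ε X`, and for every real `y` the number of the `n ∈ [1, X]` with
`t n ≤ c₀ log (X / max(N, 1)) + y σ sqrt (log (X / max(N, 1)))` differs from `δ S N * Φ(y) * X` by at
most `ε X`; for every `e < 1/20` there is `K` with `δ S f ≥ 1 - K N ^ (-e)` for all `S`, `f` and
all values `N ≥ 1` of `f` (so `δ S f = 1` for unbounded `f`); and `δ {1} 0 = 1` if and only if all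
total stopping times are finite. -/
theorem result : ∃ (c : ℝ) (δ : Finset ℕ → (ℕ → ℕ) → ℝ), 0 < c ∧
    (∀ S f, Slow f →
      HasDensity {n | Blk S f n ∧ tau S f n ≤ n} (δ S f) ∧
      HasDensity {n | Blk S f n ∧ tau S f n = ⊤} (1 - δ S f) ∧
      (∀ y : ℝ, HasDensity {n | Blk S f n ∧ ∃ k : ℕ, tau S f n = k ∧
        (k : ℝ) ≤ 3 / Real.log (4 / 3) * Real.log n +
          y * ((3 * Real.log 2 / Real.log (4 / 3) - 1) * Real.sqrt (2 / Real.log (4 / 3))) *
            Real.sqrt (Real.log n)}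
        (δ S f * (ProbabilityTheory.gaussianReal 0 1).real (Set.Iic y))) ∧
      (∀ a ∈ S, 0 < a → ¬ 3 ∣ a → c / a ≤ δ S f)) ∧
    (∀ S, ∀ ε : ℝ, 0 < ε → ∃ R : ℝ, ∀ N X : ℕ, R * max (N : ℝ) 1 ≤ X →
      |(({n | tau S (fun _ => N) n ≠ ⊤} ∩ Set.Icc 1 X).ncard : ℝ) - δ S (fun _ => N) * X| ≤ ε * X ∧
      ∀ y : ℝ, |(({n | ∃ k : ℕ, tau S (fun _ => N) n = k ∧
        (k : ℝ) ≤ 3 / Real.log (4 / 3) * Real.log (X / max (N : ℝ) 1) +
          y * ((3 * Real.log 2 / Real.log (4 / 3) - 1) * Real.sqrt (2 / Real.log (4 / 3))) *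
            Real.sqrt (Real.log (X / max (N : ℝ) 1))} ∩ Set.Icc 1 X).ncard : ℝ) -
        δ S (fun _ => N) * (ProbabilityTheory.gaussianReal 0 1).real (Set.Iic y) * X| ≤ ε * X) ∧
    (∀ e : ℝ, e < 1 / 20 → ∃ K : ℝ, ∀ S f, Slow f → ∀ m : ℕ, 1 ≤ f m →
      1 - K * (f m : ℝ) ^ (-e) ≤ δ S f) ∧
    (δ {1} 0 = 1 ↔ ∀ n : ℕ, 0 < n → tau {1} 0 n ≠ ⊤) :=
  Pool.Agent.Lib.MP_e43fce_nt_coal.fin_passage4

end Pool.Agent.Results.MP_e43fce_nt.TotalStoppingTimes
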